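import Mathlib

/-!
# A graph and a rotor mechanism for which all rotor configurations are transient

The vertices are the pairs `(n, i)` with `i < 2 ^ n`; two vertices are adjacent if their levels `n`
differ by one. At a vertex of level `n ≥ 1` the cyclic ordering of the neighbours is: one neighbour of
level `n - 1`, four neighbours of level `n + 1`, one of level `n - 1`, and so on. The function
`h (n, i) = 4 ^ (-n)` is harmonic outside level `0`, and the position of the particle weighted by `h`
together with the potentials of the rotors (at most `3 * 4 ^ (-n)` at a vertex of level `n`, hence at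
most `6` in total) decreases by `3 / 4` whenever the particle leaves level `0` and is constant otherwise.
-/

set_option autoImplicit false

namespace Pool.Agent.Results.MP_c5a801_co.AllTransient

open Finset

/-- A rotor mechanism on `G`: for each vertex `v` a cyclic ordering of the neighbours of `v`, given by
the map `next v` to the successor, a permutation of the neighbours which consists of a single cycle. -/
structure Mechanism {V : Type} (G : SimpleGraph V) where
  next : ∀ v, Equiv.Perm (G.neighborSet v)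
  cyclic : ∀ v, (next v).IsCycleOn Set.univ

/-- A rotor configuration: each vertex points to one of its neighbours. -/
abbrev Config {V : Type} (G : SimpleGraph V) : Type := ∀ v, G.neighborSet v

open Classical in
/-- One step of the rotor walk from the state (position of the particle, rotor configuration): the
rotor at the position of the particle is advanced, then the particle moves in its new direction. -/
noncomputable def step {V : Type} {G : SimpleGraph V} (m : Mechanism G) (s : V × Config G) :
    V × Config G :=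
  ((m.next s.1 (s.2 s.1) : V), Function.update s.2 s.1 (m.next s.1 (s.2 s.1)))

/-- The state at time `t` of the rotor walk with the start vertex `x` and the initial configuration
`r`. -/
noncomputable def walk {V : Type} {G : SimpleGraph V} (m : Mechanism G) (x : V) (r : Config G)
    (t : ℕ) : V × Config G := (step m)^[t] (x, r)

/-- The configuration `r` is transient: from every start vertex, every vertex is visited only
finitely often. -/
def IsTransient {V : Type} {G : SimpleGraph V} (m : Mechanism G) (r : Config G) : Prop :=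
  ∀ x v : V, {t : ℕ | (walk m x r t).1 = v}.Finite

section general

variable {V : Type} {G : SimpleGraph V} (m : Mechanism G) (x : V) (r : Config G)

theorem walk_succ (t : ℕ) : walk m x r (t + 1) = step m (walk m x r t) := by
  unfold walk
  rw [Function.iterate_succ_apply']

theorem rotor_ne (t : ℕ) (v : V) (h : (walk m x r t).1 ≠ v) :
    (walk m x r (t + 1)).2 v = (walk m x r t).2 v := by
  classical
  rw [walk_succ]
  unfold step
  simp only
  rw [Function.update_of_ne (Ne.symm h)]

theorem rotor_eq (t : ℕ) (v : V) (h : (walk m x r t).1 = v) :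
    (walk m x r (t + 1)).2 v = m.next v ((walk m x r t).2 v) := by
  classical
  rw [walk_succ]
  unfold step
  subst h
  simp only
  rw [Function.update_self]

theorem pos_eq (t : ℕ) (v : V) (h : (walk m x r t).1 = v) :
    (walk m x r (t + 1)).1 = m.next v ((walk m x r t).2 v) := by
  rw [walk_succ]
  unfold step
  subst h
  rfl

/-- The next visit to `v`, with unchanged rotor. -/
theorem next_visit (v : V) (hv : {t : ℕ | (walk m x r t).1 = v}.Infinite) (s : ℕ) :
    ∃ u, s ≤ u ∧ (walk m x r u).1 = v ∧ (walk m x r u).2 v = (walk m x r s).2 v := by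
  classical
  have hex : ∃ u, s ≤ u ∧ (walk m x r u).1 = v := by
    obtain ⟨u, hu, hsu⟩ := hv.exists_gt s
    exact ⟨u, hsu.le, hu⟩
  refine ⟨Nat.find hex, (Nat.find_spec hex).1, (Nat.find_spec hex).2, ?_⟩
  have key : ∀ u, s ≤ u → u ≤ Nat.find hex → (walk m x r u).2 v = (walk m x r s).2 v := by
    intro u hu
    induction u, hu using Nat.le_induction with
    | base => intro _; rfl
    | succ k hk ih =>
      intro hle
      rw [rotor_ne m x r k v, ih (by omega)]
      intro hc
      exact Nat.find_min hex (by omega : k < Nat.find hex) ⟨hk, hc⟩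
  exact key _ (Nat.find_spec hex).1 le_rfl

theorem visit_neighbour (hfin : ∀ v, (G.neighborSet v).Finite) (v w : V) (hvw : G.Adj v w)
    (hv : {t : ℕ | (walk m x r t).1 = v}.Infinite) :
    {t : ℕ | (walk m x r t).1 = w}.Infinite := by
  rw [Set.infinite_iff_exists_gt] at *
  intro N
  have hinf : {t : ℕ | (walk m x r t).1 = v}.Infinite := Set.infinite_iff_exists_gt.2 hv
  have key : ∀ k : ℕ, ∀ s, N < s →
      ((m.next v) ^ (k + 1)) ((walk m x r s).2 v) = ⟨w, hvw⟩ → ∃ t, N < t ∧
        (walk m x r t).1 = w := by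
    intro k
    induction k with
    | zero =>
      intro s hs h
      obtain ⟨u, hsu, hu, hr⟩ := next_visit m x r v hinf s
      refine ⟨u + 1, by omega, ?_⟩
      rw [pos_eq m x r u v hu, hr]
      have : (m.next v) ((walk m x r s).2 v) = ⟨w, hvw⟩ := by simpa using h
      rw [this]
    | succ k ih =>
      intro s hs h
      obtain ⟨u, hsu, hu, hr⟩ := next_visit m x r v hinf s
      apply ih (u + 1) (by omega)
      rw [rotor_eq m x r u v hu, hr, ← Equiv.Perm.mul_apply, ← pow_succ]
      exact h
  have : Finite (G.neighborSet v) := hfin v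
  have : Fintype (G.neighborSet v) := Fintype.ofFinite _
  have hc := m.cyclic v
  have hc' : (m.next v).IsCycleOn ((Finset.univ : Finset (G.neighborSet v)) : Set _) := by
    simpa using hc
  obtain ⟨k, hk⟩ := hc'.exists_pow_eq (a := m.next v ((walk m x r (N + 1)).2 v))
    (b := ⟨w, hvw⟩) (by simp) (by simp)
  obtain ⟨t, ht, hw⟩ := key k (N + 1) (by omega) (by
    rw [pow_succ, Equiv.Perm.mul_apply]; exact hk.2)
  exact ⟨t, hw, ht⟩

/-- The potential argument. -/
theorem visits_bounded (h : V → ℝ) (W : ∀ v, G.neighborSet v → ℝ) (δ : V → ℝ) (A : Set V)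
    (c B : ℝ) (hc : 0 < c) (hh : ∀ v, 0 ≤ h v) (hW0 : ∀ v s, 0 ≤ W v s) (hW1 : ∀ v s, W v s ≤ δ v)
    (hB : ∀ F : Finset V, ∑ v ∈ F, δ v ≤ B)
    (hWA : ∀ v ∈ A, ∀ s, W v (m.next v s) - W v s = h v - c - h (m.next v s))
    (hWn : ∀ v, v ∉ A → ∀ s, W v (m.next v s) - W v s = h v - h (m.next v s)) :
    {t : ℕ | (walk m x r t).1 ∈ A}.Finite := by
  classical
  set X : ℕ → V := fun t => (walk m x r t).1 with hX
  have main : ∀ (F : Finset V) (T : ℕ), (∀ s < T, X s ∈ F) →
      h (X T) + ∑ v ∈ F, W v ((walk m x r T).2 v) =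
        h x + ∑ v ∈ F, W v (r v) - c * (((range T).filter fun s => X s ∈ A).card : ℝ) := by
    intro F T
    induction T with
    | zero =>
      intro _
      simp [hX, walk]
    | succ T ih =>
      intro hF
      have ih' := ih (fun s hs => hF s (by omega))
      have hXT : X T ∈ F := hF T (by omega)
      have hsum : ∑ v ∈ F, W v ((walk m x r (T + 1)).2 v) =
          ∑ v ∈ F, W v ((walk m x r T).2 v) +
            (W (X T) (m.next (X T) ((walk m x r T).2 (X T))) -
              W (X T) ((walk m x r T).2 (X T))) := by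
        rw [← Finset.add_sum_erase F _ hXT, ← Finset.add_sum_erase F
          (fun v => W v ((walk m x r T).2 v)) hXT]
        have h1 : ∑ v ∈ F.erase (X T), W v ((walk m x r (T + 1)).2 v) =
            ∑ v ∈ F.erase (X T), W v ((walk m x r T).2 v) := by
          apply Finset.sum_congr rfl
          intro v hv
          rw [rotor_ne m x r T v (Ne.symm (Finset.ne_of_mem_erase hv))]
        rw [h1, rotor_eq m x r T (X T) rfl]
        ring
      have hpos : h (X (T + 1)) = h (m.next (X T) ((walk m x r T).2 (X T))) := by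
        rw [hX]
        simp only
        rw [pos_eq m x r T (X T) rfl]
      rw [hsum, hpos, Finset.range_add_one, Finset.filter_insert]
      by_cases hA : X T ∈ A
      · rw [if_pos hA, Finset.card_insert_of_notMem (by simp), hWA _ hA]
        push_cast
        linarith
      · rw [if_neg hA, hWn _ hA]
        linarith
  have bound : ∀ T : ℕ, c * (((range T).filter fun s => X s ∈ A).card : ℝ) ≤ h x + B := by
    intro T
    have h1 := main ((range T).image X) T
      (fun s hs => Finset.mem_image_of_mem X (Finset.mem_range.2 hs))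
    have h2 : 0 ≤ ∑ v ∈ (range T).image X, W v ((walk m x r T).2 v) :=
      Finset.sum_nonneg fun v _ => hW0 v _
    have h3 : ∑ v ∈ (range T).image X, W v (r v) ≤ B :=
      (Finset.sum_le_sum fun v _ => hW1 v (r v)).trans (hB _)
    have h4 := hh (X T)
    linarith
  by_contra hinf
  obtain ⟨K, hK⟩ := exists_nat_gt ((h x + B) / c)
  obtain ⟨t, ht, htc⟩ := (Set.not_finite.1 hinf : Set.Infinite _).exists_subset_card_eq K
  obtain ⟨T, hT⟩ := t.exists_nat_subset_range
  have h1 : t ⊆ (range T).filter fun s => X s ∈ A := by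
    intro s hs
    rw [Finset.mem_filter]
    exact ⟨hT hs, ht hs⟩
  have h2 : (K : ℝ) ≤ (((range T).filter fun s => X s ∈ A).card : ℝ) := by
    rw [← htc]
    exact_mod_cast Finset.card_le_card h1
  have h3 := bound T
  rw [div_lt_iff₀ hc] at hK
  have h4 : c * (K : ℝ) ≤ c * (((range T).filter fun s => X s ∈ A).card : ℝ) :=
    mul_le_mul_of_nonneg_left h2 hc.le
  linarith

end general

/-! ### The graph -/

/-- The vertices: pairs `(n, i)` with `i < 2 ^ n`. -/
abbrev Vtx : Type := {p : ℕ × ℕ // p.2 < 2 ^ p.1}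

/-- Vertices are adjacent if their levels differ by one. -/
def gr : SimpleGraph Vtx where
  Adj u v := v.1.1 = u.1.1 + 1 ∨ u.1.1 = v.1.1 + 1
  symm := ⟨fun u v h => h.symm⟩
  loopless := ⟨fun u h => by omega⟩

theorem gr_adj (u v : Vtx) : gr.Adj u v ↔ v.1.1 = u.1.1 + 1 ∨ u.1.1 = v.1.1 + 1 := Iff.rfl

theorem gr_infinite : Infinite Vtx :=
  Infinite.of_injective (fun n : ℕ => (⟨(n, 0), by positivity⟩ : Vtx)) (by
    intro a b h
    have := congrArg (fun v : Vtx => v.1.1) h
    simpa using this)

/-- The vertex of level zero. -/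
def root : Vtx := ⟨(0, 0), by norm_num⟩

theorem reach_root : ∀ (n : ℕ) (v : Vtx), v.1.1 = n → gr.Reachable v root := by
  intro n
  induction n with
  | zero =>
    intro v hv
    have h2 := v.2
    have : v = root := by
      apply Subtype.ext
      apply Prod.ext
      · exact hv
      · rw [hv] at h2
        show v.1.2 = 0
        simpa using h2
    rw [this]
  | succ n ih =>
    intro v hv
    have hadj : gr.Adj v ⟨(n, 0), by positivity⟩ := by
      rw [gr_adj]
      right
      exact hv
    exact hadj.reachable.trans (ih _ rfl)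

theorem gr_connected : gr.Connected := by
  have : Nonempty Vtx := ⟨root⟩
  constructor
  intro u v
  exact (reach_root _ u rfl).trans (reach_root _ v rfl).symm

theorem gr_finite (v : Vtx) : (gr.neighborSet v).Finite := by
  have h1 : (Set.Iic (v.1.1 + 1) ×ˢ Set.Iio (2 ^ (v.1.1 + 1)) : Set (ℕ × ℕ)).Finite :=
    (Set.finite_Iic _).prod (Set.finite_Iio _)
  refine Set.Finite.subset (h1.preimage (f := (Subtype.val : Vtx → ℕ × ℕ))
    Subtype.val_injective.injOn) ?_
  intro w hw
  rw [SimpleGraph.mem_neighborSet, gr_adj] at hw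
  rw [Set.mem_preimage, Set.mem_prod, Set.mem_Iic, Set.mem_Iio]
  have h2 : w.1.1 ≤ v.1.1 + 1 := by omega
  exact ⟨h2, lt_of_lt_of_le w.2 (Nat.pow_le_pow_right (by norm_num) h2)⟩

/-! ### The mechanism -/

theorem cyc_pow {β : Type} {N : ℕ} (E : ZMod N ≃ β) (k : ℕ) (p : ZMod N) :
    ((E.permCongr (Equiv.addRight 1)) ^ k) (E p) = E (p + k) := by
  induction k with
  | zero => simp
  | succ k ih =>
    rw [pow_succ', Equiv.Perm.mul_apply, ih, Equiv.permCongr_apply, Equiv.symm_apply_apply]
    congr 1
    show p + k + 1 = _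
    push_cast
    ring

theorem cyc {β : Type} {N : ℕ} [NeZero N] (E : ZMod N ≃ β) :
    (E.permCongr (Equiv.addRight 1)).IsCycleOn Set.univ := by
  constructor
  · exact Set.bijOn_univ.2 (Equiv.bijective _)
  · intro x _ y _
    refine ⟨((E.symm y - E.symm x).val : ℤ), ?_⟩
    rw [zpow_natCast]
    have h := cyc_pow E (E.symm y - E.symm x).val (E.symm x)
    rw [Equiv.apply_symm_apply] at h
    rw [h, ZMod.natCast_zmod_val]
    simp

/-- The level as a height: harmonic outside level zero. -/
noncomputable def ht (v : Vtx) : ℝ := (1 / 4 : ℝ) ^ v.1.1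

theorem exists_enum (v : Vtx) (n : ℕ) (hn : v.1.1 = n + 1) :
    ∃ E : ZMod (5 * 2 ^ n) ≃ gr.neighborSet v,
      ∀ p, (E p : Vtx).1.1 = if p.val % 5 = 0 then n else n + 2 := by
  have hM : 0 < 2 ^ n := by positivity
  have hM2 : 2 ^ (n + 2) = 4 * 2 ^ n := by ring
  have : NeZero (5 * 2 ^ n) := ⟨by positivity⟩
  have hval : ∀ p : ZMod (5 * 2 ^ n), p.val < 5 * 2 ^ n := fun p => ZMod.val_lt p
  have hw : ∀ w : gr.neighborSet v, w.1.1.1 = n ∧ w.1.1.2 < 2 ^ n ∨
      w.1.1.1 = n + 2 ∧ w.1.1.2 < 4 * 2 ^ n := by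
    intro w
    have h1 := w.2
    rw [SimpleGraph.mem_neighborSet, gr_adj] at h1
    have h2 := w.1.2
    rcases h1 with h1 | h1
    · right
      have h3 : w.1.1.1 = n + 2 := by omega
      rw [h3, hM2] at h2
      exact ⟨h3, h2⟩
    · left
      have h3 : w.1.1.1 = n := by omega
      rw [h3] at h2
      exact ⟨h3, h2⟩
  let f : ZMod (5 * 2 ^ n) → gr.neighborSet v := fun p =>
    if h : p.val % 5 = 0 then
      ⟨⟨(n, p.val / 5), by have := hval p; show p.val / 5 < 2 ^ n; omega⟩, by
        rw [SimpleGraph.mem_neighborSet, gr_adj]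
        right
        exact hn⟩
    else
      ⟨⟨(n + 2, 4 * (p.val / 5) + p.val % 5 - 1), by
        have := hval p
        show 4 * (p.val / 5) + p.val % 5 - 1 < 2 ^ (n + 2)
        rw [hM2]
        omega⟩, by
        rw [SimpleGraph.mem_neighborSet, gr_adj]
        left
        show n + 2 = v.1.1 + 1
        omega⟩
  let g : gr.neighborSet v → ZMod (5 * 2 ^ n) := fun w =>
    if w.1.1.1 = n then ((5 * w.1.1.2 : ℕ) : ZMod (5 * 2 ^ n))
    else ((5 * (w.1.1.2 / 4) + w.1.1.2 % 4 + 1 : ℕ) : ZMod (5 * 2 ^ n))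
  have hf0 : ∀ p : ZMod (5 * 2 ^ n), p.val % 5 = 0 → (f p).1.1 = (n, p.val / 5) := by
    intro p hp
    simp only [f, dif_pos hp]
  have hf1 : ∀ p : ZMod (5 * 2 ^ n), ¬ p.val % 5 = 0 →
      (f p).1.1 = (n + 2, 4 * (p.val / 5) + p.val % 5 - 1) := by
    intro p hp
    simp only [f, dif_neg hp]
  have hgf : ∀ p, g (f p) = p := by
    intro p
    by_cases hp : p.val % 5 = 0
    · have h1 : (f p).1.1.1 = n := by rw [hf0 p hp]
      have h2 : (f p).1.1.2 = p.val / 5 := by rw [hf0 p hp]
      simp only [g, if_pos h1, h2]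
      rw [show 5 * (p.val / 5) = p.val by omega, ZMod.natCast_zmod_val]
    · have h1 : ¬ (f p).1.1.1 = n := by rw [hf1 p hp]; simp
      have h2 : (f p).1.1.2 = 4 * (p.val / 5) + p.val % 5 - 1 := by rw [hf1 p hp]
      simp only [g, if_neg h1, h2]
      rw [show 5 * ((4 * (p.val / 5) + p.val % 5 - 1) / 4) +
        (4 * (p.val / 5) + p.val % 5 - 1) % 4 + 1 = p.val by omega, ZMod.natCast_zmod_val]
  have hfg : ∀ w, f (g w) = w := by
    intro w
    apply Subtype.ext
    apply Subtype.ext
    rcases hw w with ⟨h1, h2⟩ | ⟨h1, h2⟩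
    · have h3 : (g w).val = 5 * w.1.1.2 := by
        simp only [g, if_pos h1]
        rw [ZMod.val_natCast_of_lt]
        omega
      rw [hf0 _ (by rw [h3]; omega), h3]
      apply Prod.ext
      · exact h1.symm
      · show 5 * w.1.1.2 / 5 = w.1.1.2
        omega
    · have h3 : (g w).val = 5 * (w.1.1.2 / 4) + w.1.1.2 % 4 + 1 := by
        have h4 : ¬ w.1.1.1 = n := by omega
        simp only [g, if_neg h4]
        rw [ZMod.val_natCast_of_lt]
        omega
      rw [hf1 _ (by rw [h3]; omega), h3]
      apply Prod.ext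
      · exact h1.symm
      · show 4 * ((5 * (w.1.1.2 / 4) + w.1.1.2 % 4 + 1) / 5) +
          (5 * (w.1.1.2 / 4) + w.1.1.2 % 4 + 1) % 5 - 1 = w.1.1.2
        omega
  refine ⟨⟨f, g, hgf, hfg⟩, ?_⟩
  intro p
  show (f p).1.1.1 = _
  by_cases hp : p.val % 5 = 0
  · rw [hf0 p hp, if_pos hp]
  · rw [hf1 p hp, if_neg hp]

theorem exists_next (v : Vtx) : ∃ (f : Equiv.Perm (gr.neighborSet v))
    (W : gr.neighborSet v → ℝ), f.IsCycleOn Set.univ ∧ (∀ s, 0 ≤ W s) ∧
    (∀ s, W s ≤ 3 * (1 / 4 : ℝ) ^ v.1.1) ∧
    (v.1.1 = 0 → ∀ s, W (f s) - W s = ht v - 3 / 4 - ht (f s)) ∧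
    (v.1.1 ≠ 0 → ∀ s, W (f s) - W s = ht v - ht (f s)) := by
  rcases Nat.eq_zero_or_eq_succ_pred v.1.1 with h0 | h0
  · -- level zero
    have hnb : ∀ w : gr.neighborSet v, w.1.1.1 = 1 := by
      intro w
      have h1 := w.2
      rw [SimpleGraph.mem_neighborSet, gr_adj] at h1
      omega
    have hnb2 : ∀ w : gr.neighborSet v, w.1.1.2 < 2 := by
      intro w
      have h2 := w.1.2
      rw [hnb w] at h2
      simpa using h2
    let E : ZMod 2 ≃ gr.neighborSet v :=
      { toFun := fun p => ⟨⟨(1, p.val), by simpa using ZMod.val_lt p⟩, by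
          rw [SimpleGraph.mem_neighborSet, gr_adj]
          left
          show 1 = v.1.1 + 1
          omega⟩
        invFun := fun w => ((w.1.1.2 : ℕ) : ZMod 2)
        left_inv := by
          intro p
          show ((p.val : ℕ) : ZMod 2) = p
          exact ZMod.natCast_zmod_val p
        right_inv := by
          intro w
          apply Subtype.ext
          apply Subtype.ext
          apply Prod.ext
          · exact (hnb w).symm
          · show (((w.1.1.2 : ℕ) : ZMod 2)).val = w.1.1.2
            exact ZMod.val_natCast_of_lt (hnb2 w) }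
    refine ⟨E.permCongr (Equiv.addRight 1), fun _ => 0, cyc E, fun _ => le_rfl, fun _ => by positivity,
      fun _ s => ?_, fun h => absurd h0 h⟩
    unfold ht
    rw [h0, hnb]
    norm_num
  · -- positive level
    set n := v.1.1.pred with hn
    have hn1 : v.1.1 = n + 1 := h0
    obtain ⟨E, hE⟩ := exists_enum v n hn1
    have : NeZero (5 * 2 ^ n) := ⟨by positivity⟩
    refine ⟨E.permCongr (Equiv.addRight 1),
      fun s => 3 / 4 * (((E.symm s).val % 5 : ℕ) : ℝ) * (1 / 4 : ℝ) ^ v.1.1, cyc E,
      fun s => by positivity, ?_, fun h => by omega, ?_⟩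
    · intro s
      have h1 : (E.symm s).val % 5 ≤ 4 := by omega
      have h2 : (((E.symm s).val % 5 : ℕ) : ℝ) ≤ 4 := by exact_mod_cast h1
      have h3 : 0 < (1 / 4 : ℝ) ^ v.1.1 := by positivity
      nlinarith
    · intro _ s
      obtain ⟨p, rfl⟩ := E.surjective s
      simp only [Equiv.permCongr_apply, Equiv.symm_apply_apply]
      have hp1 : (Equiv.addRight (1 : ZMod (5 * 2 ^ n))) p = p + 1 := rfl
      rw [hp1]
      have hv : (p + 1).val % 5 = (p.val + 1) % 5 := by
        rw [ZMod.val_add, ZMod.val_one_eq_one_mod, Nat.mod_mod_of_dvd _ (Dvd.intro _ rfl),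
          Nat.add_mod, Nat.mod_mod_of_dvd _ (Dvd.intro _ rfl), ← Nat.add_mod]
      unfold ht
      rw [hE (p + 1), hv, hn1]
      have hq : p.val % 5 < 5 := Nat.mod_lt _ (by norm_num)
      by_cases h : (p.val + 1) % 5 = 0
      · rw [if_pos h, h]
        have h4 : p.val % 5 = 4 := by omega
        rw [h4]
        push_cast
        ring
      · rw [if_neg h]
        have h4 : (p.val + 1) % 5 = p.val % 5 + 1 := by omega
        rw [h4]
        push_cast
        ring

theorem sum_levels (F : Finset Vtx) : ∑ v ∈ F, 3 * (1 / 4 : ℝ) ^ v.1.1 ≤ 6 := by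
  classical
  obtain ⟨K, hK⟩ : ∃ K : ℕ, ∀ v ∈ F, v.1.1 < K := by
    refine ⟨(F.sup fun v => v.1.1) + 1, fun v hv => ?_⟩
    exact Nat.lt_succ_of_le (Finset.le_sup (f := fun v : Vtx => v.1.1) hv)
  have h1 : ∑ v ∈ F, 3 * (1 / 4 : ℝ) ^ v.1.1 =
      ∑ n ∈ range K, ∑ v ∈ F.filter (fun v => v.1.1 = n), 3 * (1 / 4 : ℝ) ^ v.1.1 :=
    (Finset.sum_fiberwise_of_maps_to (fun v hv => Finset.mem_range.2 (hK v hv)) _).symm
  rw [h1]
  have h2 : ∀ n ∈ range K, ∑ v ∈ F.filter (fun v => v.1.1 = n), 3 * (1 / 4 : ℝ) ^ v.1.1 ≤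
      3 * (1 / 2 : ℝ) ^ n := by
    intro n _
    have hc : (F.filter fun v => v.1.1 = n).card ≤ 2 ^ n := by
      rw [← Finset.card_range (2 ^ n)]
      apply Finset.card_le_card_of_injOn (fun v => v.1.2)
      · intro v hv
        have hv' := Finset.mem_filter.1 (Finset.mem_coe.1 hv)
        have := v.2
        rw [hv'.2] at this
        simpa using this
      · intro a ha b hb hab
        have ha' := (Finset.mem_filter.1 (Finset.mem_coe.1 ha)).2
        have hb' := (Finset.mem_filter.1 (Finset.mem_coe.1 hb)).2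
        apply Subtype.ext
        exact Prod.ext (ha'.trans hb'.symm) hab
    have hs : ∑ v ∈ F.filter (fun v => v.1.1 = n), 3 * (1 / 4 : ℝ) ^ v.1.1 =
        ((F.filter fun v => v.1.1 = n).card : ℝ) * (3 * (1 / 4 : ℝ) ^ n) := by
      rw [← nsmul_eq_mul, ← Finset.sum_const]
      apply Finset.sum_congr rfl
      intro v hv
      rw [(Finset.mem_filter.1 hv).2]
    rw [hs]
    have hc' : ((F.filter fun v => v.1.1 = n).card : ℝ) ≤ 2 ^ n := by exact_mod_cast hc
    calc ((F.filter fun v => v.1.1 = n).card : ℝ) * (3 * (1 / 4 : ℝ) ^ n)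
        ≤ 2 ^ n * (3 * (1 / 4 : ℝ) ^ n) := mul_le_mul_of_nonneg_right hc' (by positivity)
      _ = 3 * (2 * (1 / 4 : ℝ)) ^ n := by rw [mul_pow]; ring
      _ = 3 * (1 / 2 : ℝ) ^ n := by norm_num
  refine (Finset.sum_le_sum h2).trans ?_
  rw [← Finset.mul_sum]
  have := sum_geometric_two_le K
  linarith

/-- There are an infinite, connected, locally finite simple graph and a rotor mechanism on it such
that every initial rotor configuration is transient. -/
theorem result : ∃ (V : Type) (G : SimpleGraph V), Infinite V ∧ G.Connected ∧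
    (∀ v, (G.neighborSet v).Finite) ∧
    ∃ m : Mechanism G, ∀ r : Config G, IsTransient m r := by
  classical
  refine ⟨Vtx, gr, gr_infinite, gr_connected, gr_finite, ?_⟩
  choose f W hcyc hW0 hW1 hWA hWn using exists_next
  refine ⟨⟨f, hcyc⟩, ?_⟩
  intro r x
  have h0 : ∀ v : Vtx, v.1.1 = 0 → {t : ℕ | (walk ⟨f, hcyc⟩ x r t).1 = v}.Finite := by
    intro v hv
    have := visits_bounded (⟨f, hcyc⟩ : Mechanism gr) x r ht W (fun v => 3 * (1 / 4 : ℝ) ^ v.1.1)
      {v | v.1.1 = 0} (3 / 4) 6 (by norm_num) (fun v => by unfold ht; positivity)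
      hW0 hW1 sum_levels (fun v hv => hWA v hv) (fun v hv => hWn v hv)
    refine this.subset ?_
    intro t ht'
    have ht2 : (walk ⟨f, hcyc⟩ x r t).1 = v := ht'
    show ((walk ⟨f, hcyc⟩ x r t).1).1.1 = 0
    rw [ht2]
    exact hv
  intro v
  by_contra hinf
  have key : ∀ (n : ℕ) (v : Vtx), v.1.1 = n →
      {t : ℕ | (walk ⟨f, hcyc⟩ x r t).1 = v}.Infinite → False := by
    intro n
    induction n with
    | zero =>
      intro v hv h
      exact h (h0 v hv)
    | succ n ih =>
      intro v hv h
      have hadj : gr.Adj v ⟨(n, 0), by positivity⟩ := by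
        rw [gr_adj]
        right
        exact hv
      exact ih _ rfl (visit_neighbour (⟨f, hcyc⟩ : Mechanism gr) x r gr_finite v _ hadj h)
  exact key _ v rfl hinf

end Pool.Agent.Results.MP_c5a801_co.AllTransient
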